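import Pool.Agent.Helper67.BT.Stmts

/-! bt_mods SEC: log-concavity of the integral. -/

open Finset MeasureTheory

namespace Pool.Agent.Helper67.BT

/-- the rescaled vectors -/
noncomputable def sec_a {n k : ℕ} (a : Fin n → E k) (p : ℝ) (τ v : Fin n → ℝ) (t : ℝ) (i : Fin n) :
    E k := Real.exp ((τ i + t * v i) / p) • a i

theorem sec_pow {n k : ℕ} (a : Fin n → E k) (p : ℝ) (hp : 2 < p) (τ v : Fin n → ℝ) (t : ℝ)
    (i : Fin n) (y : E k) :
    |inner ℝ (sec_a a p τ v t i) y| ^ p = Real.exp (τ i + t * v i) * |inner ℝ (a i) y| ^ p := by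
  unfold sec_a
  rw [real_inner_smul_left, abs_mul, abs_of_pos (Real.exp_pos _),
    Real.mul_rpow (Real.exp_pos _).le (abs_nonneg _), ← Real.exp_mul,
    div_mul_cancel₀ _ (by linarith : p ≠ 0)]

theorem sec_sp {n k : ℕ} (a : Fin n → E k) (p : ℝ) (τ v : Fin n → ℝ) (t : ℝ) (h : Sp a) :
    Sp (sec_a a p τ v t) := by
  intro y hy
  refine h y fun i => ?_
  have h1 := hy i
  unfold sec_a at h1
  rw [real_inner_smul_left] at h1
  rcases mul_eq_zero.mp h1 with h2 | h2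
  · exact absurd h2 (Real.exp_pos _).ne'
  · exact h2

theorem sec_key {k : ℕ} (n : ℕ) (a : Fin n → E k) (p : ℝ) (τ v : Fin n → ℝ) (hp : 2 < p) (t : ℝ)
    (h : (∫ y, (∑ i, v i * |inner ℝ (sec_a a p τ v t i) y| ^ p) ^ 2 *
        Real.exp (-∑ i, |inner ℝ (sec_a a p τ v t i) y| ^ p)) *
      (∫ y, Real.exp (-∑ i, |inner ℝ (sec_a a p τ v t i) y| ^ p)) -
      (∫ y, (∑ i, v i * |inner ℝ (sec_a a p τ v t i) y| ^ p) *
        Real.exp (-∑ i, |inner ℝ (sec_a a p τ v t i) y| ^ p)) ^ 2 ≤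
      (∫ y, (∑ i, v i ^ 2 * |inner ℝ (sec_a a p τ v t i) y| ^ p) *
        Real.exp (-∑ i, |inner ℝ (sec_a a p τ v t i) y| ^ p)) *
      ∫ y, Real.exp (-∑ i, |inner ℝ (sec_a a p τ v t i) y| ^ p)) :
    (∫ y, Xt a p τ v 1 t y ^ 2 * wt a p τ v t y) * (∫ y, wt a p τ v t y) -
      (∫ y, Xt a p τ v 1 t y * wt a p τ v t y) ^ 2 ≤
      (∫ y, Xt a p τ v 2 t y * wt a p τ v t y) * ∫ y, wt a p τ v t y := by
  simp only [sec_pow a p hp τ v t] at h
  unfold Xt wt
  simp only [pow_one]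
  exact h

theorem st_SEC (hL : ST_LOC) (hS : ST_SDE) : ST_SEC := by
  intro k
  obtain ⟨ε, hε, hε1, hL⟩ := hL k
  refine ⟨ε, hε, hε1, ?_⟩
  intro n a p τ v hp hp2 ha
  obtain ⟨I0, I1, I2, D1, D2⟩ := hS n k a p τ v hp.le ha
  have hpos : ∀ t, 0 < ∫ y, wt a p τ v t y := by
    intro t
    have := I0 t
    unfold wt at this ⊢
    exact integral_exp_pos this
  have hd : ∀ t, HasDerivAt (fun t => Real.log (∫ y, wt a p τ v t y))
      ((-∫ y, Xt a p τ v 1 t y * wt a p τ v t y) / ∫ y, wt a p τ v t y) t := fun t =>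
    (D1 t).log (hpos t).ne'
  have hderiv : deriv (fun t => Real.log (∫ y, wt a p τ v t y)) =
      fun t => (-∫ y, Xt a p τ v 1 t y * wt a p τ v t y) / ∫ y, wt a p τ v t y :=
    funext fun t => (hd t).deriv
  have hd2 : ∀ t, HasDerivAt (fun t => (-∫ y, Xt a p τ v 1 t y * wt a p τ v t y) /
      ∫ y, wt a p τ v t y)
      (((-∫ y, (Xt a p τ v 2 t y - Xt a p τ v 1 t y ^ 2) * wt a p τ v t y) *
        (∫ y, wt a p τ v t y) - (-∫ y, Xt a p τ v 1 t y * wt a p τ v t y) *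
        (-∫ y, Xt a p τ v 1 t y * wt a p τ v t y)) / (∫ y, wt a p τ v t y) ^ 2) t := fun t =>
    ((D2 t).neg).div (D1 t) (hpos t).ne'
  refine concaveOn_univ_of_deriv2_nonpos (fun t => (hd t).differentiableAt) ?_ ?_
  · rw [hderiv]
    exact fun t => (hd2 t).differentiableAt
  · intro t
    rw [Function.iterate_succ, Function.comp_apply, Function.iterate_one, hderiv, (hd2 t).deriv]
    refine div_nonpos_of_nonpos_of_nonneg ?_ (sq_nonneg _)
    have hsplit : ∫ y, (Xt a p τ v 2 t y - Xt a p τ v 1 t y ^ 2) * wt a p τ v t y =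
        (∫ y, Xt a p τ v 2 t y * wt a p τ v t y) -
        ∫ y, Xt a p τ v 1 t y ^ 2 * wt a p τ v t y := by
      rw [← integral_sub (I2 t) (I1 t)]
      congr 1
      funext y
      ring
    rw [hsplit]
    have hk := sec_key n a p τ v hp t (hL n (sec_a a p τ v t) p v hp hp2 (sec_sp a p τ v t ha))
    nlinarith [hk]

end Pool.Agent.Helper67.BT
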